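import Mathlib

/-!
A three level parity code over `F_2`: for a bipartite matrix `M` with row set `P` and column set
`Q`, the conditions `F1 = 0` and `F3 = 0` can be reached from every odd `Q` by deleting a column.
-/

set_option autoImplicit false
set_option linter.unusedSectionVars false

namespace Pool.Agent.W389.Tur

open Finset

section
variable {V : Type} [DecidableEq V]

/-- the sum of the entries -/
def F1 (M : V → V → ZMod 2) (P Q : Finset V) : ZMod 2 := ∑ x ∈ P, ∑ y ∈ Q, M x y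

/-- the column sums -/
def cs (M : V → V → ZMod 2) (P : Finset V) (y : V) : ZMod 2 := ∑ x ∈ P, M x y

/-- the inner products of two columns -/
def K (M : V → V → ZMod 2) (P : Finset V) (y z : V) : ZMod 2 := ∑ x ∈ P, M x y * M x z

/-- the cubic form -/
def F3 (M : V → V → ZMod 2) (P Q : Finset V) : ZMod 2 :=
  ∑ x ∈ P, ∑ y ∈ Q, (∑ z ∈ Q, M x z) * M x y * (∑ w ∈ P, M w y)

/-- the transpose -/
def tr (M : V → V → ZMod 2) : V → V → ZMod 2 := fun x y => M y x

theorem F1_tr (M : V → V → ZMod 2) (P Q : Finset V) : F1 (tr M) P Q = F1 M Q P := by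
  unfold F1 tr
  rw [Finset.sum_comm]

theorem F3_tr (M : V → V → ZMod 2) (P Q : Finset V) : F3 (tr M) P Q = F3 M Q P := by
  unfold F3 tr
  rw [Finset.sum_comm]
  apply Finset.sum_congr rfl
  intro x _
  apply Finset.sum_congr rfl
  intro y _
  ring

theorem F1_eq (M : V → V → ZMod 2) (P Q : Finset V) : F1 M P Q = ∑ y ∈ Q, cs M P y := by
  unfold F1 cs
  rw [Finset.sum_comm]

theorem F3_eq (M : V → V → ZMod 2) (P Q : Finset V) :
    F3 M P Q = ∑ y ∈ Q, ∑ z ∈ Q, cs M P y * K M P y z := by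
  unfold F3 cs K
  rw [Finset.sum_comm]
  apply Finset.sum_congr rfl
  intro y _
  have : ∀ x ∈ P, (∑ z ∈ Q, M x z) * M x y * ∑ w ∈ P, M w y =
      ∑ z ∈ Q, (∑ w ∈ P, M w y) * (M x y * M x z) := by
    intro x _
    rw [Finset.sum_mul, Finset.sum_mul]
    apply Finset.sum_congr rfl
    intro z _
    ring
  rw [Finset.sum_congr rfl this, Finset.sum_comm]
  apply Finset.sum_congr rfl
  intro z _
  rw [Finset.mul_sum]

theorem K_symm (M : V → V → ZMod 2) (P : Finset V) (y z : V) : K M P y z = K M P z y := by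
  unfold K
  apply Finset.sum_congr rfl
  intro x _
  ring

theorem z2_sq (x : ZMod 2) : x * x = x := by
  revert x; decide

theorem z2_add (x : ZMod 2) : x + x = 0 := by
  revert x; decide

theorem K_diag (M : V → V → ZMod 2) (P : Finset V) (y : V) : K M P y y = cs M P y := by
  unfold K cs
  apply Finset.sum_congr rfl
  intro x _
  exact z2_sq _

/-- the off-diagonal entries of a symmetric matrix cancel -/
theorem sum_symm (Q : Finset V) (H : V → V → ZMod 2) (hH : ∀ y z, H y z = H z y) :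
    ∑ y ∈ Q, ∑ z ∈ Q, H y z = ∑ y ∈ Q, H y y := by
  induction Q using Finset.induction_on with
  | empty => simp
  | insert a Q ha ih =>
    rw [Finset.sum_insert ha, Finset.sum_insert ha, Finset.sum_insert ha]
    have : ∑ y ∈ Q, ∑ z ∈ insert a Q, H y z = ∑ y ∈ Q, H a y + ∑ y ∈ Q, H y y := by
      rw [← ih, ← Finset.sum_add_distrib]
      apply Finset.sum_congr rfl
      intro y _
      rw [Finset.sum_insert ha, hH y a]
    rw [this]
    have h2 := z2_add (∑ y ∈ Q, H a y)
    linear_combination h2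

theorem F1_erase (M : V → V → ZMod 2) (P Q : Finset V) {w : V} (hw : w ∈ Q) :
    F1 M P (Q.erase w) = F1 M P Q + cs M P w := by
  rw [F1_eq, F1_eq, ← Finset.add_sum_erase Q _ hw]
  have := z2_add (cs M P w)
  linear_combination (-1 : ZMod 2) * this

theorem F3_erase (M : V → V → ZMod 2) (P Q : Finset V) {w : V} (hw : w ∈ Q) :
    F3 M P (Q.erase w) = F3 M P Q + cs M P w * (∑ z ∈ Q, K M P w z) +
      (∑ y ∈ Q, cs M P y * K M P y w) + cs M P w := by
  rw [F3_eq, F3_eq]
  have h1 : ∑ y ∈ Q, ∑ z ∈ Q, cs M P y * K M P y z =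
      ∑ z ∈ Q, cs M P w * K M P w z + ∑ y ∈ Q.erase w, ∑ z ∈ Q, cs M P y * K M P y z :=
    (Finset.add_sum_erase Q (fun y => ∑ z ∈ Q, cs M P y * K M P y z) hw).symm
  have h2 : ∑ y ∈ Q.erase w, ∑ z ∈ Q, cs M P y * K M P y z =
      ∑ y ∈ Q.erase w, cs M P y * K M P y w +
        ∑ y ∈ Q.erase w, ∑ z ∈ Q.erase w, cs M P y * K M P y z := by
    rw [← Finset.sum_add_distrib]
    apply Finset.sum_congr rfl
    intro y _
    exact (Finset.add_sum_erase Q (fun z => cs M P y * K M P y z) hw).symm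
  have h3 : ∑ y ∈ Q, cs M P y * K M P y w =
      cs M P w * K M P w w + ∑ y ∈ Q.erase w, cs M P y * K M P y w :=
    (Finset.add_sum_erase Q (fun y => cs M P y * K M P y w) hw).symm
  rw [K_diag, z2_sq] at h3
  rw [h1, h2, h3, Finset.mul_sum]
  have e1 := z2_add (∑ z ∈ Q, cs M P w * K M P w z)
  have e2 := z2_add (∑ y ∈ Q.erase w, cs M P y * K M P y w)
  have e3 := z2_add (cs M P w)
  linear_combination (-1 : ZMod 2) * e1 - e2 - e3

/-- the covering property -/
theorem exists_erase (M : V → V → ZMod 2) (P Q : Finset V) (hQ : Odd Q.card) :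
    ∃ w ∈ Q, F1 M P (Q.erase w) = 0 ∧ F3 M P (Q.erase w) = 0 := by
  by_contra hcon
  push Not at hcon
  set S := F1 M P Q with hS
  set T := F3 M P Q with hT
  have hzero : ∑ w ∈ Q, (1 + F1 M P (Q.erase w)) * (1 + F3 M P (Q.erase w)) = 0 := by
    apply Finset.sum_eq_zero
    intro w hw
    have h2 := hcon w hw
    have key : ∀ a b : ZMod 2, (a = 0 → b ≠ 0) → (1 + a) * (1 + b) = 0 := by decide
    exact key _ _ h2
  have h1 : ∀ w ∈ Q, (1 + F1 M P (Q.erase w)) * (1 + F3 M P (Q.erase w)) =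
      (1 + S) * (1 + T) + (1 + S) * (cs M P w * (∑ z ∈ Q, K M P w z) +
      (∑ y ∈ Q, cs M P y * K M P y w) + cs M P w) + cs M P w * (1 + T) +
      cs M P w * (∑ z ∈ Q, K M P w z) + cs M P w * (∑ y ∈ Q, cs M P y * K M P y w) +
      cs M P w := by
    intro w hw
    rw [F1_erase M P Q hw, F3_erase M P Q hw]
    have e := z2_sq (cs M P w)
    linear_combination ((∑ z ∈ Q, K M P w z) + 1) * e
  rw [Finset.sum_congr rfl h1] at hzero
  simp only [Finset.sum_add_distrib, ← Finset.mul_sum, ← Finset.sum_mul] at hzero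
  have hcard : ∀ c : ZMod 2, ∑ _w ∈ Q, c = c := by
    intro c
    rw [Finset.sum_const]
    obtain ⟨k, hk⟩ := hQ
    rw [hk, nsmul_eq_mul]
    push_cast
    have : (2 : ZMod 2) = 0 := rfl
    rw [this]; ring
  have hV : ∑ w ∈ Q, cs M P w = S := (F1_eq M P Q).symm
  have hT1 : ∑ w ∈ Q, cs M P w * (∑ z ∈ Q, K M P w z) = T := by
    rw [hT, F3_eq]
    apply Finset.sum_congr rfl
    intro w _
    rw [Finset.mul_sum]
  have hT2 : ∑ w ∈ Q, ∑ y ∈ Q, cs M P y * K M P y w = T := by
    rw [hT, F3_eq, Finset.sum_comm]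
  have hT3 : ∑ w ∈ Q, cs M P w * (∑ y ∈ Q, cs M P y * K M P y w) = S := by
    rw [← hV]
    have : ∀ w ∈ Q, cs M P w * (∑ y ∈ Q, cs M P y * K M P y w) =
        ∑ y ∈ Q, cs M P w * cs M P y * K M P w y := by
      intro w _
      rw [Finset.mul_sum]
      apply Finset.sum_congr rfl
      intro y _
      rw [K_symm M P y w]; ring
    rw [Finset.sum_congr rfl this, sum_symm]
    · apply Finset.sum_congr rfl
      intro y _
      rw [K_diag, z2_sq, z2_sq]
    · intro y z
      rw [K_symm M P y z]; ring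
  rw [hcard, hcard, hV, hT1, hT2, hT3] at hzero
  have key : ∀ a b : ZMod 2, (1 + a) * (1 + b) + (1 + a) * (b + b + a) + a * (1 + b) + b + a + a ≠
      0 := by decide
  exact key _ _ hzero

end

end Pool.Agent.W389.Tur
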