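import Pool.Agent.W389.Tur.Code

/-!
Counting the matrices with `F1 = 0` and `F3 = 0`.
-/

set_option autoImplicit false
set_option linter.unusedSectionVars false

namespace Pool.Agent.W389.Tur

open Finset

/-- half of a set, by an involution -/
theorem half_on {Ω : Type} [DecidableEq Ω] (C : Finset Ω) (p : Ω → Prop) [DecidablePred p] (σ : Ω → Ω)
    (h1 : ∀ x ∈ C, σ x ∈ C) (h2 : ∀ x ∈ C, σ (σ x) = x) (h3 : ∀ x ∈ C, (p (σ x) ↔ ¬ p x)) :
    2 * (C.filter p).card = C.card := by
  have h4 := Finset.card_filter_add_card_filter_not (s := C) p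
  have h5 : (C.filter p).card = (C.filter fun x => ¬ p x).card := by
    apply Finset.card_bij' (fun x _ => σ x) (fun x _ => σ x)
    · intro x hx
      rw [Finset.mem_filter] at hx ⊢
      refine ⟨h1 x hx.1, ?_⟩
      rw [h3 x hx.1]
      exact not_not.2 hx.2
    · intro x hx
      rw [Finset.mem_filter] at hx ⊢
      refine ⟨h1 x hx.1, ?_⟩
      rw [h3 x hx.1]
      exact hx.2
    · intro x hx
      exact h2 x (Finset.mem_filter.1 hx).1
    · intro x hx
      exact h2 x (Finset.mem_filter.1 hx).1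
  omega

section
variable {V : Type} [Fintype V] [DecidableEq V]

/-- the sum of the odd columns -/
def wv (M : V → V → ZMod 2) (P Q : Finset V) (x : V) : ZMod 2 := ∑ y ∈ Q, cs M P y * M x y

/-- the sum of the even columns -/
def we (M : V → V → ZMod 2) (P Q : Finset V) (x : V) : ZMod 2 := ∑ y ∈ Q, (1 + cs M P y) * M x y

/-- the inner product of the two -/
def WW (M : V → V → ZMod 2) (P Q : Finset V) : ZMod 2 := ∑ x ∈ P, wv M P Q x * we M P Q x

theorem F3_WW (M : V → V → ZMod 2) (P Q : Finset V) : F3 M P Q = F1 M P Q + WW M P Q := by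
  have h1 : F3 M P Q = ∑ x ∈ P, (∑ z ∈ Q, M x z) * (∑ y ∈ Q, cs M P y * M x y) := by
    unfold F3
    apply Finset.sum_congr rfl
    intro x _
    rw [Finset.mul_sum]
    apply Finset.sum_congr rfl
    intro y _
    unfold cs
    ring
  have h2 : ∀ x ∈ P, (∑ z ∈ Q, M x z) * (∑ y ∈ Q, cs M P y * M x y) =
      wv M P Q x + wv M P Q x * we M P Q x := by
    intro x _
    have h3 : ∑ z ∈ Q, M x z = wv M P Q x + we M P Q x := by
      unfold wv we
      rw [← Finset.sum_add_distrib]
      apply Finset.sum_congr rfl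
      intro z _
      have := z2_add (cs M P z * M x z)
      linear_combination (-1 : ZMod 2) * this
    rw [h3]
    show (wv M P Q x + we M P Q x) * wv M P Q x = _
    have := z2_sq (wv M P Q x)
    linear_combination this
  rw [h1, Finset.sum_congr rfl h2, Finset.sum_add_distrib]
  have h4 : ∑ x ∈ P, wv M P Q x = F1 M P Q := by
    unfold wv
    rw [Finset.sum_comm, F1_eq]
    apply Finset.sum_congr rfl
    intro y _
    rw [← Finset.mul_sum]
    exact z2_sq _
  rw [h4]
  rfl

/-- a chosen element of `Q` where `f` has the value `c` -/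
noncomputable def pick [Nonempty V] (Q : Finset V) (f : V → ZMod 2) (c : ZMod 2) : V :=
  Classical.epsilon (fun y => y ∈ Q ∧ f y = c)

theorem pick_spec [Nonempty V] {Q : Finset V} {f : V → ZMod 2} {c : ZMod 2}
    (h : ∃ y ∈ Q, f y = c) : pick Q f c ∈ Q ∧ f (pick Q f c) = c := by
  obtain ⟨y, hy⟩ := h
  exact Classical.epsilon_spec (p := fun y => y ∈ Q ∧ f y = c) ⟨y, hy⟩

/-- the matrix with the column `e` at the place `y` -/
def colm (y0 : V) (e : V → ZMod 2) : V → V → ZMod 2 := fun x y => if y = y0 then e x else 0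

theorem cs_add_colm (M : V → V → ZMod 2) (P : Finset V) (y0 : V) (e : V → ZMod 2)
    (he : ∑ x ∈ P, e x = 0) : cs (M + colm y0 e) P = cs M P := by
  ext y
  unfold cs colm
  simp only [Pi.add_apply]
  rw [Finset.sum_add_distrib]
  by_cases hy : y = y0
  · simp [hy, he]
  · simp [hy]

theorem wv_add_colm (M : V → V → ZMod 2) (P Q : Finset V) {y0 : V} (hy : y0 ∈ Q) (e : V → ZMod 2)
    (he : ∑ x ∈ P, e x = 0) (x : V) :
    wv (M + colm y0 e) P Q x = wv M P Q x + cs M P y0 * e x := by
  unfold wv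
  rw [cs_add_colm M P y0 e he]
  simp only [Pi.add_apply, mul_add]
  rw [Finset.sum_add_distrib]
  congr 1
  rw [Finset.sum_eq_single_of_mem y0 hy]
  · simp [colm]
  · intro b _ hb
    simp [colm, hb]

theorem we_add_colm (M : V → V → ZMod 2) (P Q : Finset V) {y0 : V} (hy : y0 ∈ Q) (e : V → ZMod 2)
    (he : ∑ x ∈ P, e x = 0) (x : V) :
    we (M + colm y0 e) P Q x = we M P Q x + (1 + cs M P y0) * e x := by
  unfold we
  rw [cs_add_colm M P y0 e he]
  simp only [Pi.add_apply, mul_add]
  rw [Finset.sum_add_distrib]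
  congr 1
  rw [Finset.sum_eq_single_of_mem y0 hy]
  · simp [colm]
  · intro b _ hb
    simp [colm, hb]

theorem add_colm_self (M : V → V → ZMod 2) (y0 : V) (e : V → ZMod 2) :
    M + colm y0 e + colm y0 e = M := by
  ext x y
  simp only [Pi.add_apply]
  have := z2_add (colm y0 e x y)
  linear_combination this

/-- the mixed matrices with `F1 = 0` -/
def Cnd (P Q : Finset V) : Finset (V → V → ZMod 2) :=
  univ.filter (fun M => F1 M P Q = 0 ∧ (∃ y ∈ Q, cs M P y = 0) ∧ ∃ y ∈ Q, cs M P y = 1)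

theorem mem_Cnd_add (P Q : Finset V) (M : V → V → ZMod 2) (y0 : V) (e : V → ZMod 2)
    (he : ∑ x ∈ P, e x = 0) (hM : M ∈ Cnd P Q) : M + colm y0 e ∈ Cnd P Q := by
  unfold Cnd at hM ⊢
  rw [Finset.mem_filter] at hM ⊢
  refine ⟨Finset.mem_univ _, ?_⟩
  rw [F1_eq, cs_add_colm M P y0 e he, ← F1_eq]
  exact hM.2

/-- the involution -/
noncomputable def sig [Nonempty V] (P Q : Finset V) (M : V → V → ZMod 2) : V → V → ZMod 2 :=
  M + colm (pick Q (cs M P) 0) (fun x => (if x = pick P (wv M P Q) 0 then 1 else 0) +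
    (if x = pick P (wv M P Q) 1 then 1 else 0))

theorem half_nonconst [Nonempty V] (P Q : Finset V) :
    2 * (((Cnd P Q).filter (fun M => (∃ x ∈ P, wv M P Q x = 0) ∧ ∃ x ∈ P, wv M P Q x = 1)).filter
      (fun M => WW M P Q = 0)).card =
    ((Cnd P Q).filter (fun M => (∃ x ∈ P, wv M P Q x = 0) ∧ ∃ x ∈ P, wv M P Q x = 1)).card := by
  have key : ∀ M ∈ ((Cnd P Q).filter
      (fun M => (∃ x ∈ P, wv M P Q x = 0) ∧ ∃ x ∈ P, wv M P Q x = 1)),
      sig P Q M ∈ Cnd P Q ∧ cs (sig P Q M) P = cs M P ∧ wv (sig P Q M) P Q = wv M P Q ∧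
      WW (sig P Q M) P Q = WW M P Q + 1 := by
    intro M hM
    rw [Finset.mem_filter] at hM
    obtain ⟨hM1, hM2, hM3⟩ := hM
    have hM1' := hM1
    unfold Cnd at hM1'
    rw [Finset.mem_filter] at hM1'
    obtain ⟨-, -, hM4, hM5⟩ := hM1'
    have hy := pick_spec hM4
    have hi := pick_spec hM2
    have hj := pick_spec hM3
    set y0 := pick Q (cs M P) 0 with hy0
    set i := pick P (wv M P Q) 0 with hi0
    set j := pick P (wv M P Q) 1 with hj0
    set e : V → ZMod 2 := fun x => (if x = i then 1 else 0) + (if x = j then 1 else 0) with he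
    have hsig : sig P Q M = M + colm y0 e := rfl
    have he0 : ∑ x ∈ P, e x = 0 := by
      rw [he, Finset.sum_add_distrib, Finset.sum_ite_eq', Finset.sum_ite_eq', if_pos hi.1,
        if_pos hj.1]
      decide
    have hwv : wv (sig P Q M) P Q = wv M P Q := by
      ext x
      rw [hsig, wv_add_colm M P Q hy.1 e he0, hy.2, zero_mul, add_zero]
    refine ⟨?_, ?_, hwv, ?_⟩
    · rw [hsig]; exact mem_Cnd_add P Q M y0 e he0 hM1
    · rw [hsig]; exact cs_add_colm M P y0 e he0
    · unfold WW
      rw [hwv]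
      have : ∀ x ∈ P, wv M P Q x * we (sig P Q M) P Q x =
          wv M P Q x * we M P Q x + ((if x = i then wv M P Q x else 0) +
            (if x = j then wv M P Q x else 0)) := by
        intro x _
        rw [hsig, we_add_colm M P Q hy.1 e he0, hy.2, add_zero, one_mul, mul_add]
        congr 1
        rw [he]
        simp only [mul_add, mul_ite, mul_one, mul_zero]
      rw [Finset.sum_congr rfl this, Finset.sum_add_distrib, Finset.sum_add_distrib,
        Finset.sum_ite_eq', Finset.sum_ite_eq', if_pos hi.1, if_pos hj.1, hi.2, hj.2, zero_add]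
  apply half_on _ _ (sig P Q)
  · intro M hM
    have hM' := hM
    rw [Finset.mem_filter] at hM' ⊢
    obtain ⟨k1, k2, k3, k4⟩ := key M hM
    refine ⟨k1, ?_⟩
    rw [k3]
    exact hM'.2
  · intro M hM
    obtain ⟨k1, k2, k3, k4⟩ := key M hM
    have : sig P Q (sig P Q M) = sig P Q M + colm (pick Q (cs M P) 0)
        (fun x => (if x = pick P (wv M P Q) 0 then 1 else 0) +
        (if x = pick P (wv M P Q) 1 then 1 else 0)) := by
      conv_lhs => unfold sig
      rw [show (M + colm (pick Q (cs M P) 0) (fun x => (if x = pick P (wv M P Q) 0 then 1 else 0) +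
        (if x = pick P (wv M P Q) 1 then 1 else 0))) = sig P Q M from rfl, k2, k3]
    rw [this]
    exact add_colm_self M _ _
  · intro M hM
    obtain ⟨k1, k2, k3, k4⟩ := key M hM
    rw [k4]
    have : ∀ x : ZMod 2, x + 1 = 0 ↔ ¬ x = 0 := by decide
    exact this _

/-- the column with support `T` and a parity entry at `x0` -/
def pc (x0 : V) (T : Finset V) : V → ZMod 2 :=
  fun x => (if x ∈ T then 1 else 0) + (if x = x0 then (T.card : ZMod 2) else 0)

theorem sum_pc (P : Finset V) {x0 : V} (hx : x0 ∈ P) {T : Finset V} (hT : T ⊆ P) :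
    ∑ x ∈ P, pc x0 T x = 0 := by
  unfold pc
  rw [Finset.sum_add_distrib, Finset.sum_ite_eq', if_pos hx, Finset.sum_ite_mem,
    Finset.inter_eq_right.2 hT]
  simp only [Finset.sum_const, nsmul_eq_mul, mul_one]
  exact z2_add _

theorem const_le [Nonempty V] (P Q : Finset V) {x0 : V} (hx : x0 ∈ P) (c : ZMod 2) :
    ((Cnd P Q).filter (fun M => ∀ x ∈ P, wv M P Q x = c)).card * 2 ^ (P.card - 1) ≤
      (Cnd P Q).card := by
  rw [← Finset.card_erase_of_mem hx, ← Finset.card_powerset, ← Finset.card_product]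
  apply Finset.card_le_card_of_injOn
    (fun p : (V → V → ZMod 2) × Finset V => p.1 + colm (pick Q (cs p.1 P) 1) (pc x0 p.2))
  · rintro ⟨M, T⟩ hp
    rw [Finset.mem_coe, Finset.mem_product, Finset.mem_filter, Finset.mem_powerset] at hp
    exact mem_Cnd_add P Q M _ _ (sum_pc P hx (hp.2.trans (Finset.erase_subset _ _))) hp.1.1
  · have key : ∀ M T, M ∈ (Cnd P Q).filter (fun M => ∀ x ∈ P, wv M P Q x = c) →
        T ⊆ P.erase x0 →
        cs (M + colm (pick Q (cs M P) 1) (pc x0 T)) P = cs M P ∧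
        ∀ x ∈ P.erase x0, (x ∈ T ↔ wv (M + colm (pick Q (cs M P) 1) (pc x0 T)) P Q x ≠ c) := by
      intro M T hM hT
      rw [Finset.mem_filter] at hM
      have hM1' := hM.1
      unfold Cnd at hM1'
      rw [Finset.mem_filter] at hM1'
      obtain ⟨-, -, hM4, hM5⟩ := hM1'
      have hy := pick_spec hM5
      have hs := sum_pc P hx (hT.trans (Finset.erase_subset x0 P))
      refine ⟨cs_add_colm M P _ _ hs, ?_⟩
      intro x hx'
      rw [wv_add_colm M P Q hy.1 _ hs, hy.2, hM.2 x (Finset.mem_of_mem_erase hx'), one_mul]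
      unfold pc
      rw [if_neg (Finset.ne_of_mem_erase hx'), add_zero]
      by_cases hxT : x ∈ T
      · rw [if_pos hxT]
        simp [hxT]
      · rw [if_neg hxT]
        simp [hxT]
    rintro ⟨M, T⟩ hp ⟨M', T'⟩ hp' heq
    rw [Finset.mem_coe, Finset.mem_product, Finset.mem_powerset] at hp hp'
    simp only at hp hp' heq
    obtain ⟨k1, k2⟩ := key M T hp.1 hp.2
    obtain ⟨k1', k2'⟩ := key M' T' hp'.1 hp'.2
    rw [← heq] at k1' k2'
    have hcs : cs M P = cs M' P := by rw [← k1, k1']
    have hT : T = T' := by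
      ext x
      by_cases hx' : x ∈ P.erase x0
      · rw [k2 x hx', k2' x hx']
      · constructor
        · intro h; exact absurd (hp.2 h) hx'
        · intro h; exact absurd (hp'.2 h) hx'
    subst hT
    rw [hcs] at heq
    have hM : M = M' := add_right_cancel heq
    rw [hM]

theorem mono_le (P Q : Finset V) {x0 : V} (hx : x0 ∈ P) (c : ZMod 2) :
    ((univ : Finset (V → V → ZMod 2)).filter (fun M => ∀ y ∈ Q, cs M P y = c)).card *
      2 ^ Q.card ≤ Fintype.card (V → V → ZMod 2) := by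
  rw [← Finset.card_powerset, ← Finset.card_product, ← Finset.card_univ]
  have key : ∀ M : V → V → ZMod 2, ∀ T : Finset V, (∀ y ∈ Q, cs M P y = c) → T ⊆ Q →
      ∀ y ∈ Q, (y ∈ T ↔ cs (M + fun x y => if x = x0 ∧ y ∈ T then (1 : ZMod 2) else 0) P y ≠ c) := by
    intro M T hM hT y hy
    have h1 : cs (M + fun x y => if x = x0 ∧ y ∈ T then (1 : ZMod 2) else 0) P y =
        c + if y ∈ T then 1 else 0 := by
      rw [← hM y hy]
      unfold cs
      simp only [Pi.add_apply]
      rw [Finset.sum_add_distrib]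
      congr 1
      by_cases hyT : y ∈ T
      · simp [hyT, hx]
      · simp [hyT]
    rw [h1]
    by_cases hyT : y ∈ T
    · simp [hyT]
    · simp [hyT]
  apply Finset.card_le_card_of_injOn
    (fun p : (V → V → ZMod 2) × Finset V => p.1 +
      fun x y => if x = x0 ∧ y ∈ p.2 then (1 : ZMod 2) else 0)
  · intro p _
    exact Finset.mem_coe.2 (Finset.mem_univ _)
  · rintro ⟨M, T⟩ hp ⟨M', T'⟩ hp' heq
    rw [Finset.mem_coe, Finset.mem_product, Finset.mem_powerset, Finset.mem_filter] at hp hp'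
    simp only at hp hp' heq
    have k1 := key M T hp.1.2 hp.2
    have k2 := key M' T' hp'.1.2 hp'.2
    rw [← heq] at k2
    have hT : T = T' := by
      ext x
      by_cases hx' : x ∈ Q
      · rw [k1 x hx', k2 x hx']
      · constructor
        · intro h; exact absurd (hp.2 h) hx'
        · intro h; exact absurd (hp'.2 h) hx'
    subst hT
    have hM : M = M' := add_right_cancel heq
    rw [hM]

theorem half_F1 (P Q : Finset V) {x0 y0 : V} (hx : x0 ∈ P) (hy : y0 ∈ Q) :
    2 * ((univ : Finset (V → V → ZMod 2)).filter (fun M => F1 M P Q = 0)).card =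
      Fintype.card (V → V → ZMod 2) := by
  rw [← Finset.card_univ]
  apply half_on _ _ (fun M => M + fun x y => if x = x0 ∧ y = y0 then (1 : ZMod 2) else 0)
  · intro M _
    exact Finset.mem_univ _
  · intro M _
    ext x y
    simp only [Pi.add_apply]
    have := z2_add (if x = x0 ∧ y = y0 then (1 : ZMod 2) else 0)
    linear_combination this
  · intro M _
    have h3 : F1 (M + fun x y => if x = x0 ∧ y = y0 then (1 : ZMod 2) else 0) P Q =
        F1 M P Q + 1 := by
      unfold F1
      simp only [Pi.add_apply]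
      simp_rw [Finset.sum_add_distrib]
      congr 1
      rw [Finset.sum_eq_single_of_mem x0 hx]
      · rw [Finset.sum_eq_single_of_mem y0 hy]
        · simp
        · intro b _ hb
          simp [hb]
      · intro a _ ha
        simp [ha]
    rw [h3]
    have : ∀ x : ZMod 2, x + 1 = 0 ↔ ¬ x = 0 := by decide
    exact this _

/-- the number of good matrices -/
theorem count_good (P Q : Finset V) (hP : 2 ≤ P.card) (hQ : Even Q.card) (hQ0 : Q.Nonempty) :
    (((univ : Finset (V → V → ZMod 2)).filter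
      (fun M => F1 M P Q = 0 ∧ F3 M P Q = 0)).card : ℝ) ≤
    (1 / 4 + (1 / 2) ^ P.card + (1 / 2) ^ Q.card - 4 * (1 / 2) ^ P.card * (1 / 2) ^ Q.card) *
      (Fintype.card (V → V → ZMod 2) : ℝ) := by
  have hP0 : P.Nonempty := by
    rw [← Finset.card_pos]; omega
  obtain ⟨x0, hx0⟩ := hP0
  obtain ⟨y0, hy0⟩ := hQ0
  have : Nonempty V := ⟨x0⟩
  set N := Fintype.card (V → V → ZMod 2) with hN
  set A := (univ : Finset (V → V → ZMod 2)).filter (fun M => F1 M P Q = 0) with hA
  set B0 := (univ : Finset (V → V → ZMod 2)).filter (fun M => ∀ y ∈ Q, cs M P y = 0) with hB0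
  set B1 := (univ : Finset (V → V → ZMod 2)).filter (fun M => ∀ y ∈ Q, cs M P y = 1) with hB1
  have hz2 : ∀ x : ZMod 2, x ≠ 0 → x = 1 := by decide
  have hz2' : ∀ x : ZMod 2, x ≠ 1 → x = 0 := by decide
  -- the partition of `A`
  have hdisj1 : Disjoint B0 B1 := by
    rw [Finset.disjoint_left]
    intro M h0 h1
    rw [hB0, Finset.mem_filter] at h0
    rw [hB1, Finset.mem_filter] at h1
    have e0 := h0.2 y0 hy0
    rw [h1.2 y0 hy0] at e0
    exact absurd e0 (by decide)
  have hdisj2 : Disjoint (B0 ∪ B1) (Cnd P Q) := by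
    rw [Finset.disjoint_left]
    intro M h0 h1
    unfold Cnd at h1
    rw [Finset.mem_filter] at h1
    obtain ⟨-, -, ⟨y, hy, hy'⟩, z, hz, hz'⟩ := h1
    rw [Finset.mem_union, hB0, hB1, Finset.mem_filter, Finset.mem_filter] at h0
    rcases h0 with h0 | h0
    · rw [h0.2 z hz] at hz'
      exact absurd hz' (by decide)
    · rw [h0.2 y hy] at hy'
      exact absurd hy' (by decide)
  have hunion : (B0 ∪ B1) ∪ Cnd P Q = A := by
    ext M
    unfold Cnd
    rw [Finset.mem_union, Finset.mem_union, hB0, hB1, hA, Finset.mem_filter, Finset.mem_filter,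
      Finset.mem_filter, Finset.mem_filter]
    constructor
    · rintro ((h | h) | h)
      · refine ⟨Finset.mem_univ _, ?_⟩
        rw [F1_eq]
        exact Finset.sum_eq_zero h.2
      · refine ⟨Finset.mem_univ _, ?_⟩
        rw [F1_eq, Finset.sum_congr rfl h.2, Finset.sum_const, nsmul_eq_mul, mul_one]
        obtain ⟨k, hk⟩ := hQ
        rw [hk]
        push_cast
        exact z2_add _
      · exact ⟨Finset.mem_univ _, h.2.1⟩
    · intro h
      by_cases h1 : ∃ y ∈ Q, cs M P y = 0
      · by_cases h2 : ∃ y ∈ Q, cs M P y = 1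
        · exact Or.inr ⟨Finset.mem_univ _, h.2, h1, h2⟩
        · push Not at h2
          exact Or.inl (Or.inl ⟨Finset.mem_univ _, fun y hy => hz2' _ (h2 y hy)⟩)
      · push Not at h1
        exact Or.inl (Or.inr ⟨Finset.mem_univ _, fun y hy => hz2 _ (h1 y hy)⟩)
  have hAcard : A.card = B0.card + B1.card + (Cnd P Q).card := by
    rw [← hunion, Finset.card_union_of_disjoint hdisj2, Finset.card_union_of_disjoint hdisj1]
  have hA2 : 2 * A.card = N := half_F1 P Q hx0 hy0
  have hb0 : B0.card * 2 ^ Q.card ≤ N := mono_le P Q hx0 0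
  have hb1 : B1.card * 2 ^ Q.card ≤ N := mono_le P Q hx0 1
  -- the good ones in `Cnd`
  set Cn := (Cnd P Q).filter (fun M => (∃ x ∈ P, wv M P Q x = 0) ∧ ∃ x ∈ P, wv M P Q x = 1) with hCn
  set C0 := (Cnd P Q).filter (fun M => ∀ x ∈ P, wv M P Q x = 0) with hC0
  set C1 := (Cnd P Q).filter (fun M => ∀ x ∈ P, wv M P Q x = 1) with hC1
  have hc0 : C0.card * 2 ^ (P.card - 1) ≤ (Cnd P Q).card := const_le P Q hx0 0
  have hc1 : C1.card * 2 ^ (P.card - 1) ≤ (Cnd P Q).card := const_le P Q hx0 1
  have hcn : 2 * (Cn.filter (fun M => WW M P Q = 0)).card = Cn.card := half_nonconst P Q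
  have hdisjC : Disjoint C0 C1 := by
    rw [Finset.disjoint_left]
    intro M h0 h1
    rw [hC0, Finset.mem_filter] at h0
    rw [hC1, Finset.mem_filter] at h1
    have e0 := h0.2 x0 hx0
    rw [h1.2 x0 hx0] at e0
    exact absurd e0 (by decide)
  have hdisjC2 : Disjoint (C0 ∪ C1) Cn := by
    rw [Finset.disjoint_left]
    intro M h0 h1
    rw [hCn, Finset.mem_filter] at h1
    obtain ⟨-, ⟨y, hy, hy'⟩, z, hz, hz'⟩ := h1
    rw [Finset.mem_union, hC0, hC1, Finset.mem_filter, Finset.mem_filter] at h0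
    rcases h0 with h0 | h0
    · rw [h0.2 z hz] at hz'
      exact absurd hz' (by decide)
    · rw [h0.2 y hy] at hy'
      exact absurd hy' (by decide)
  have hunC : (C0 ∪ C1) ∪ Cn = Cnd P Q := by
    ext M
    rw [Finset.mem_union, Finset.mem_union, hC0, hC1, hCn, Finset.mem_filter, Finset.mem_filter,
      Finset.mem_filter]
    constructor
    · rintro ((h | h) | h)
      · exact h.1
      · exact h.1
      · exact h.1
    · intro h
      by_cases h1 : ∃ y ∈ P, wv M P Q y = 0
      · by_cases h2 : ∃ y ∈ P, wv M P Q y = 1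
        · exact Or.inr ⟨h, h1, h2⟩
        · push Not at h2
          exact Or.inl (Or.inl ⟨h, fun y hy => hz2' _ (h2 y hy)⟩)
      · push Not at h1
        exact Or.inl (Or.inr ⟨h, fun y hy => hz2 _ (h1 y hy)⟩)
  have hCcard : (Cnd P Q).card = C0.card + C1.card + Cn.card := by
    rw [← hunC, Finset.card_union_of_disjoint hdisjC2, Finset.card_union_of_disjoint hdisjC]
  have hsub : (univ : Finset (V → V → ZMod 2)).filter (fun M => F1 M P Q = 0 ∧ F3 M P Q = 0) ⊆
      (B0 ∪ B1) ∪ ((C0 ∪ C1) ∪ Cn.filter (fun M => WW M P Q = 0)) := by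
    intro M hM
    rw [Finset.mem_filter] at hM
    obtain ⟨-, h1, h3⟩ := hM
    rw [F3_WW, h1, zero_add] at h3
    have hMA : M ∈ (B0 ∪ B1) ∪ ((C0 ∪ C1) ∪ Cn) := by
      rw [hunC, hunion, hA, Finset.mem_filter]
      exact ⟨Finset.mem_univ _, h1⟩
    rw [Finset.mem_union, Finset.mem_union (s := C0 ∪ C1)] at hMA ⊢
    rcases hMA with h | h | h
    · exact Or.inl h
    · exact Or.inr (Or.inl h)
    · exact Or.inr (Or.inr (Finset.mem_filter.2 ⟨h, h3⟩))
  have hcard := Finset.card_le_card hsub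
  have hcard2 : ((univ : Finset (V → V → ZMod 2)).filter
      (fun M => F1 M P Q = 0 ∧ F3 M P Q = 0)).card ≤
      B0.card + B1.card + (C0.card + C1.card + (Cn.filter (fun M => WW M P Q = 0)).card) := by
    refine hcard.trans ((Finset.card_union_le _ _).trans ?_)
    have e1 := Finset.card_union_le B0 B1
    have e2 := Finset.card_union_le (C0 ∪ C1) (Cn.filter (fun M => WW M P Q = 0))
    have e3 := Finset.card_union_le C0 C1
    omega
  -- real numbers
  have r1 : (A.card : ℝ) = B0.card + B1.card + (Cnd P Q).card := by exact_mod_cast hAcard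
  have r2 : 2 * (A.card : ℝ) = N := by exact_mod_cast hA2
  have r3 : (B0.card : ℝ) * 2 ^ Q.card ≤ N := by exact_mod_cast hb0
  have r4 : (B1.card : ℝ) * 2 ^ Q.card ≤ N := by exact_mod_cast hb1
  have r5 : (C0.card : ℝ) * 2 ^ (P.card - 1) ≤ (Cnd P Q).card := by exact_mod_cast hc0
  have r6 : (C1.card : ℝ) * 2 ^ (P.card - 1) ≤ (Cnd P Q).card := by exact_mod_cast hc1
  have r7 : 2 * ((Cn.filter (fun M => WW M P Q = 0)).card : ℝ) = Cn.card := by exact_mod_cast hcn
  have r8 : ((Cnd P Q).card : ℝ) = C0.card + C1.card + Cn.card := by exact_mod_cast hCcard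
  have r9 : (((univ : Finset (V → V → ZMod 2)).filter
      (fun M => F1 M P Q = 0 ∧ F3 M P Q = 0)).card : ℝ) ≤
      B0.card + B1.card + (C0.card + C1.card + (Cn.filter (fun M => WW M P Q = 0)).card) := by
    exact_mod_cast hcard2
  set u : ℝ := (1 / 2) ^ P.card with hu
  set v : ℝ := (1 / 2) ^ Q.card with hv
  have hu0 : 0 < u := by positivity
  have hv0 : 0 < v := by positivity
  have hu1 : u ≤ 1 / 4 := by
    rw [hu]
    calc ((1 : ℝ) / 2) ^ P.card ≤ (1 / 2) ^ 2 := pow_le_pow_of_le_one (by norm_num) (by norm_num) hP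
      _ = 1 / 4 := by norm_num
  have hu2 : (2 : ℝ) ^ (P.card - 1) * (2 * u) = 1 := by
    have : (2 : ℝ) ^ P.card = 2 ^ (P.card - 1) * 2 := by
      rw [← pow_succ]; congr 1; omega
    rw [hu, ← mul_assoc, ← this, ← mul_pow]
    norm_num
  have hv2 : (2 : ℝ) ^ Q.card * v = 1 := by
    rw [hv, ← mul_pow]; norm_num
  have s3 : (B0.card : ℝ) ≤ N * v := by
    have := mul_le_mul_of_nonneg_right r3 hv0.le
    rw [mul_assoc, hv2, mul_one] at this
    exact this
  have s4 : (B1.card : ℝ) ≤ N * v := by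
    have := mul_le_mul_of_nonneg_right r4 hv0.le
    rw [mul_assoc, hv2, mul_one] at this
    exact this
  have s5 : (C0.card : ℝ) ≤ (Cnd P Q).card * (2 * u) := by
    have := mul_le_mul_of_nonneg_right r5 (show (0 : ℝ) ≤ 2 * u by positivity)
    rw [mul_assoc, hu2, mul_one] at this
    exact this
  have s6 : (C1.card : ℝ) ≤ (Cnd P Q).card * (2 * u) := by
    have := mul_le_mul_of_nonneg_right r6 (show (0 : ℝ) ≤ 2 * u by positivity)
    rw [mul_assoc, hu2, mul_one] at this
    exact this
  have t1 : (((univ : Finset (V → V → ZMod 2)).filter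
      (fun M => F1 M P Q = 0 ∧ F3 M P Q = 0)).card : ℝ) ≤
      B0.card + B1.card + (Cnd P Q).card * (1 / 2 + 2 * u) := by
    linarith
  have t2 : ((B0.card : ℝ) + B1.card) * (1 / 2 - 2 * u) ≤ (2 * (N * v)) * (1 / 2 - 2 * u) := by
    apply mul_le_mul_of_nonneg_right _ (by linarith)
    linarith
  have t3 : ((Cnd P Q).card : ℝ) = N / 2 - B0.card - B1.card := by linarith
  rw [t3] at t1
  have t4 : (B0.card : ℝ) + B1.card + (N / 2 - B0.card - B1.card) * (1 / 2 + 2 * u) =
      (B0.card + B1.card) * (1 / 2 - 2 * u) + N * (1 / 4 + u) := by ring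
  rw [t4] at t1
  have t5 : (2 * ((N : ℝ) * v)) * (1 / 2 - 2 * u) + N * (1 / 4 + u) =
      (1 / 4 + u + v - 4 * u * v) * N := by ring
  linarith

end

end Pool.Agent.W389.Tur
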