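import Pool.Agent.W389.Tur.Count
import Pool.Agent.H123R2.Transport

/-!
The averaging argument.
-/

set_option autoImplicit false
set_option linter.unusedSectionVars false

namespace Pool.Agent.W389.Tur

open Finset Pool.Agent.H123R2

section
variable {V : Type} [Fintype V] [DecidableEq V]

/-- the points of `Z` of the first colour -/
def fp (g : V → Bool) (Z : Finset V) : Finset V := Z.filter (fun v => g v = true)

/-- the points of `Z` of the second colour -/
def fq (g : V → Bool) (Z : Finset V) : Finset V := Z.filter (fun v => g v = false)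

theorem fp_add_fq (g : V → Bool) (Z : Finset V) : (fp g Z).card + (fq g Z).card = Z.card := by
  rw [← Finset.card_filter_add_card_filter_not (s := Z) (fun v => g v = true)]
  simp only [Bool.not_eq_true]
  rfl

/-- the family -/
def Fam (r : ℕ) (g : V → Bool) (M : V → V → ZMod 2) : Finset (Finset V) :=
  (powersetCard r (univ : Finset V)).filter
    (fun Z => Even (fp g Z).card ∧ F1 M (fp g Z) (fq g Z) = 0 ∧ F3 M (fp g Z) (fq g Z) = 0)

theorem cover {r : ℕ} (hr : Even r) (g : V → Bool) (M : V → V → ZMod 2) :
    Cov (univ : Finset V) r (Fam r g M) := by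
  refine ⟨?_, ?_⟩
  · intro Z hZ
    have := (Finset.mem_filter.1 hZ).1
    exact ⟨Finset.subset_univ Z, (Finset.mem_powersetCard.1 this).2⟩
  · intro W _ hW
    have hAB := fp_add_fq g W
    rw [hW] at hAB
    have herase : ∀ u ∈ W, W.erase u ∈ powersetCard r (univ : Finset V) := by
      intro u hu
      rw [Finset.mem_powersetCard]
      refine ⟨Finset.subset_univ _, ?_⟩
      rw [Finset.card_erase_of_mem hu, hW]
      rfl
    rcases Nat.even_or_odd (fp g W).card with hev | hodd
    · -- the second colour is odd
      have hBodd : Odd (fq g W).card := by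
        obtain ⟨k, hk⟩ := hev
        obtain ⟨s, hs⟩ := hr
        exact ⟨s - k, by omega⟩
      obtain ⟨u, hu, hsum⟩ := exists_erase M (fp g W) (fq g W) hBodd
      have huW : u ∈ W := (Finset.mem_filter.1 hu).1
      have hgu : g u = false := (Finset.mem_filter.1 hu).2
      refine ⟨W.erase u, ?_, Finset.erase_subset u W⟩
      have hfA : fp g (W.erase u) = fp g W := by
        unfold fp
        rw [Finset.filter_erase]
        apply Finset.erase_eq_of_notMem
        intro h
        have := (Finset.mem_filter.1 h).2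
        rw [hgu] at this
        exact absurd this (by decide)
      have hfB : fq g (W.erase u) = (fq g W).erase u := by
        unfold fq
        rw [Finset.filter_erase]
      unfold Fam
      rw [Finset.mem_filter, hfA, hfB]
      exact ⟨herase u huW, hev, hsum⟩
    · obtain ⟨u, hu, hsum⟩ := exists_erase (tr M) (fq g W) (fp g W) hodd
      rw [F1_tr, F3_tr] at hsum
      have huW : u ∈ W := (Finset.mem_filter.1 hu).1
      have hgu : g u = true := (Finset.mem_filter.1 hu).2
      refine ⟨W.erase u, ?_, Finset.erase_subset u W⟩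
      have hfA : fp g (W.erase u) = (fp g W).erase u := by
        unfold fp
        rw [Finset.filter_erase]
      have hfB : fq g (W.erase u) = fq g W := by
        unfold fq
        rw [Finset.filter_erase]
        apply Finset.erase_eq_of_notMem
        intro h
        have := (Finset.mem_filter.1 h).2
        rw [hgu] at this
        exact absurd this (by decide)
      unfold Fam
      rw [Finset.mem_filter, hfA, hfB]
      refine ⟨herase u huW, ?_, hsum⟩
      rw [Finset.card_erase_of_mem hu]
      obtain ⟨k, hk⟩ := hodd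
      exact ⟨k, by omega⟩

/-- the generating function of the colourings -/
theorem gen (Z : Finset V) (x : ℝ) :
    ∑ g : V → Bool, x ^ (fp g Z).card = (2 : ℝ) ^ Fintype.card V * ((1 + x) / 2) ^ Z.card := by
  have h1 : ∀ g : V → Bool, x ^ (fp g Z).card =
      ∏ v : V, (if v ∈ Z then (if g v = true then x else 1) else 1) := by
    intro g
    rw [Finset.prod_ite_mem, Finset.univ_inter]
    unfold fp
    rw [Finset.prod_ite]
    simp
  simp_rw [h1]
  rw [← Fintype.piFinset_univ, ← Finset.prod_univ_sum (fun _ : V => (univ : Finset Bool))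
    (fun v c => if v ∈ Z then (if c = true then x else 1) else 1)]
  have h2 : ∀ v : V, ∑ c : Bool, (if v ∈ Z then (if c = true then x else 1) else (1 : ℝ)) =
      2 * (if v ∈ Z then (1 + x) / 2 else 1) := by
    intro v
    by_cases hv : v ∈ Z
    · simp [hv]; ring
    · simp [hv]
  simp_rw [h2]
  rw [Finset.prod_mul_distrib, Finset.prod_const, Finset.card_univ, Finset.prod_ite_mem,
    Finset.univ_inter, Finset.prod_const]

/-- the number of colourings that are constant on `Z` -/
theorem gen_const (Z : Finset V) (c : Bool) [∀ g : V → Bool, Decidable (∀ v ∈ Z, g v = c)] :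
    ∑ g : V → Bool, (if ∀ v ∈ Z, g v = c then (1 : ℝ) else 0) =
      (2 : ℝ) ^ Fintype.card V * (1 / 2) ^ Z.card := by
  have h1 : ∀ g : V → Bool, (if ∀ v ∈ Z, g v = c then (1 : ℝ) else 0) =
      ∏ v : V, (if v ∈ Z then (if g v = c then 1 else 0) else 1) := by
    intro g
    rw [Finset.prod_ite_mem, Finset.univ_inter]
    by_cases h : ∀ v ∈ Z, g v = c
    · rw [if_pos h]
      symm
      apply Finset.prod_eq_one
      intro v hv
      rw [if_pos (h v hv)]
    · rw [if_neg h]
      push Not at h
      obtain ⟨v, hv, hne⟩ := h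
      symm
      apply Finset.prod_eq_zero hv
      rw [if_neg hne]
  simp_rw [h1]
  rw [← Fintype.piFinset_univ, ← Finset.prod_univ_sum (fun _ : V => (univ : Finset Bool))
    (fun v d => if v ∈ Z then (if d = c then (1 : ℝ) else 0) else 1)]
  have h2 : ∀ v : V, ∑ d : Bool, (if v ∈ Z then (if d = c then (1 : ℝ) else 0) else (1 : ℝ)) =
      2 * (if v ∈ Z then 1 / 2 else 1) := by
    intro v
    by_cases hv : v ∈ Z
    · simp [hv]
    · simp [hv]
  simp_rw [h2]
  rw [Finset.prod_mul_distrib, Finset.prod_const, Finset.card_univ, Finset.prod_ite_mem,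
    Finset.univ_inter, Finset.prod_const]

end

/-- the value of the construction -/
noncomputable def fv (r : ℕ) : ℝ :=
  1 / 8 + (3 / 4) ^ r - 5 / 2 * (1 / 2) ^ r + 7 * (1 / 4) ^ r

theorem hcount {n r : ℕ} (hr : Even r) (hr2 : 2 ≤ r) (Z : Finset (Fin n)) (hZ : Z.card = r) :
    (((univ : Finset ((Fin n → Bool) × (Fin n → Fin n → ZMod 2))).filter
      (fun p => Even (fp p.1 Z).card ∧ F1 p.2 (fp p.1 Z) (fq p.1 Z) = 0 ∧
        F3 p.2 (fp p.1 Z) (fq p.1 Z) = 0)).card : ℝ) ≤
      fv r * (Fintype.card ((Fin n → Bool) × (Fin n → Fin n → ZMod 2)) : ℝ) := by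
  set m : ℝ := (Fintype.card (Fin n → Fin n → ZMod 2) : ℝ) with hm
  have hm0 : 0 ≤ m := by positivity
  set ρ : ℝ := (1 / 2 : ℝ) ^ r with hρ
  have hρ0 : 0 < ρ := by positivity
  have h1 : (((univ : Finset ((Fin n → Bool) × (Fin n → Fin n → ZMod 2))).filter
      (fun p => Even (fp p.1 Z).card ∧ F1 p.2 (fp p.1 Z) (fq p.1 Z) = 0 ∧
        F3 p.2 (fp p.1 Z) (fq p.1 Z) = 0)).card : ℝ) = ∑ g : Fin n → Bool,
      (if Even (fp g Z).card then
        (((univ : Finset (Fin n → Fin n → ZMod 2)).filter (fun M =>
          F1 M (fp g Z) (fq g Z) = 0 ∧ F3 M (fp g Z) (fq g Z) = 0)).card : ℝ) else 0) := by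
    rw [Finset.card_filter]
    push_cast
    rw [← Finset.univ_product_univ, Finset.sum_product]
    apply Finset.sum_congr rfl
    intro g _
    split_ifs with hg
    · rw [Finset.card_filter]
      push_cast
      apply Finset.sum_congr rfl
      intro M _
      simp [hg]
    · apply Finset.sum_eq_zero
      intro M _
      simp [hg]
  have h2 : ∀ g : Fin n → Bool,
      (if Even (fp g Z).card then
        (((univ : Finset (Fin n → Fin n → ZMod 2)).filter (fun M =>
          F1 M (fp g Z) (fq g Z) = 0 ∧ F3 M (fp g Z) (fq g Z) = 0)).card : ℝ) else 0) ≤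
      m * ((1 / 4 - 4 * ρ) * ((1 ^ (fp g Z).card + (-1) ^ (fp g Z).card) / 2) +
        (((1 / 2) ^ (fp g Z).card + (-(1 / 2)) ^ (fp g Z).card) / 2) +
        ρ * ((2 ^ (fp g Z).card + (-2) ^ (fp g Z).card) / 2) -
        (1 / 4 - 3 * ρ) * ((if ∀ v ∈ Z, g v = true then 1 else 0) +
          (if ∀ v ∈ Z, g v = false then 1 else 0))) := by
    intro g
    have hcard := fp_add_fq g Z
    rw [hZ] at hcard
    by_cases hev : Even (fp g Z).card
    · rw [if_pos hev, hev.neg_pow, hev.neg_pow, hev.neg_pow, one_pow]
      have hle : (((univ : Finset (Fin n → Fin n → ZMod 2)).filter (fun M =>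
          F1 M (fp g Z) (fq g Z) = 0 ∧ F3 M (fp g Z) (fq g Z) = 0)).card : ℝ) ≤ m := by
        rw [hm]
        exact_mod_cast Finset.card_le_univ _
      have hw : ρ * 2 ^ (fp g Z).card = (1 / 2) ^ (fq g Z).card := by
        rw [hρ, ← hcard, pow_add, mul_right_comm, ← mul_pow]
        norm_num
      by_cases hT : ∀ v ∈ Z, g v = true
      · have hfp : fp g Z = Z := Finset.filter_true_of_mem hT
        have hF : ¬ ∀ v ∈ Z, g v = false := by
          intro hF
          have : Z.Nonempty := by
            rw [← Finset.card_pos]; omega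
          obtain ⟨z, hz⟩ := this
          have e1 := hT z hz
          rw [hF z hz] at e1
          exact absurd e1 (by decide)
        rw [if_pos hT, if_neg hF]
        rw [hfp, hZ] at hw ⊢
        have hq0 : (fq g Z).card = 0 := by
          rw [hfp, hZ] at hcard; omega
        rw [hq0, pow_zero] at hw
        rw [hfp] at hle
        refine hle.trans ?_
        have : m * ((1 / 4 - 4 * ρ) * ((1 + 1) / 2) + ((1 / 2) ^ r + (1 / 2) ^ r) / 2 +
            ρ * ((2 ^ r + 2 ^ r) / 2) - (1 / 4 - 3 * ρ) * (1 + 0)) =
            m * (-ρ + (1 / 2) ^ r + ρ * 2 ^ r) := by ring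
        rw [this, hw, ← hρ]
        apply le_of_eq
        ring
      · by_cases hF : ∀ v ∈ Z, g v = false
        · have hfp : fp g Z = ∅ := by
            apply Finset.filter_false_of_mem
            intro v hv
            rw [hF v hv]
            decide
          rw [if_pos hF, if_neg hT]
          rw [hfp, Finset.card_empty]
          rw [hfp] at hle
          refine hle.trans ?_
          simp only [pow_zero]
          apply le_of_eq
          ring
        · rw [if_neg hT, if_neg hF]
          have hP : (fp g Z).Nonempty := by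
            unfold fp
            rw [Finset.filter_nonempty_iff]
            by_contra hcon
            push Not at hcon
            apply hF
            intro v hv
            simpa using hcon v hv
          have hQ : (fq g Z).Nonempty := by
            unfold fq
            rw [Finset.filter_nonempty_iff]
            by_contra hcon
            push Not at hcon
            apply hT
            intro v hv
            simpa using hcon v hv
          have hP2 : 2 ≤ (fp g Z).card := by
            have := hP.card_pos
            obtain ⟨k, hk⟩ := hev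
            omega
          have hQe : Even (fq g Z).card := by
            obtain ⟨k, hk⟩ := hev
            obtain ⟨s, hs⟩ := hr
            exact ⟨s - k, by omega⟩
          have hc := count_good (fp g Z) (fq g Z) hP2 hQe hQ
          refine hc.trans ?_
          rw [← hm, ← hw]
          have e1 : 4 * (1 / 2 : ℝ) ^ (fp g Z).card * (ρ * 2 ^ (fp g Z).card) = 4 * ρ := by
            have : (1 / 2 : ℝ) ^ (fp g Z).card * 2 ^ (fp g Z).card = 1 := by
              rw [← mul_pow]; norm_num
            linear_combination 4 * ρ * this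
          rw [e1]
          apply le_of_eq
          ring
    · have hodd := Nat.not_even_iff_odd.1 hev
      rw [if_neg hev, hodd.neg_pow, hodd.neg_pow, hodd.neg_pow, one_pow]
      by_cases hT : ∀ v ∈ Z, g v = true
      · exfalso
        have hfp : fp g Z = Z := Finset.filter_true_of_mem hT
        rw [hfp, hZ] at hev
        exact hev hr
      · by_cases hF : ∀ v ∈ Z, g v = false
        · exfalso
          have hfp : fp g Z = ∅ := by
            apply Finset.filter_false_of_mem
            intro v hv
            rw [hF v hv]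
            decide
          rw [hfp, Finset.card_empty] at hev
          exact hev (by decide)
        · rw [if_neg hT, if_neg hF]
          apply le_of_eq
          ring
  rw [h1]
  refine (Finset.sum_le_sum fun g _ => h2 g).trans ?_
  rw [← Finset.mul_sum, Finset.sum_sub_distrib, Finset.sum_add_distrib, Finset.sum_add_distrib,
    ← Finset.mul_sum, ← Finset.mul_sum, ← Finset.mul_sum, ← Finset.sum_div, ← Finset.sum_div,
    ← Finset.sum_div, Finset.sum_add_distrib, Finset.sum_add_distrib, Finset.sum_add_distrib,
    Finset.sum_add_distrib, gen, gen, gen, gen, gen, gen, gen_const, gen_const, hZ,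
    Fintype.card_fin]
  have h6 : (Fintype.card ((Fin n → Bool) × (Fin n → Fin n → ZMod 2)) : ℝ) = (2 : ℝ) ^ n * m := by
    rw [Fintype.card_prod, hm]
    push_cast
    congr 1
    simp
  rw [h6]
  have p1 : ((1 + -1 : ℝ) / 2) ^ r = 0 := by
    rw [show ((1 + -1 : ℝ) / 2) = 0 by norm_num]
    exact zero_pow (by omega)
  have p2 : ((1 + -2 : ℝ) / 2) ^ r = ρ := by
    rw [show ((1 + -2 : ℝ) / 2) = -(1 / 2) by norm_num, hr.neg_pow]
  have p3 : ρ * ((1 + 2 : ℝ) / 2) ^ r = (3 / 4) ^ r := by
    rw [hρ, ← mul_pow]; norm_num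
  have p4 : ρ * ρ = (1 / 4) ^ r := by
    rw [hρ, ← mul_pow]; norm_num
  have p5 : ((1 + 1 : ℝ) / 2) ^ r = 1 := by
    rw [show ((1 + 1 : ℝ) / 2) = 1 by norm_num, one_pow]
  have p6 : ((1 + 1 / 2 : ℝ) / 2) ^ r = (3 / 4) ^ r := by norm_num
  have p7 : ((1 + -(1 / 2) : ℝ) / 2) ^ r = (1 / 4) ^ r := by norm_num
  rw [p1, p2, p5, p6, p7]
  unfold fv
  rw [← hρ]
  apply le_of_eq
  linear_combination (m * 2 ^ n / 2) * p3 + (13 / 2 * m * 2 ^ n) * p4

/-- every even uniformity -/
theorem good_even_fv {r : ℕ} (hr : Even r) (hr2 : 2 ≤ r) : Good r (fv r * (r + 1)) := by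
  intro n
  set Ω := (Fin n → Bool) × (Fin n → Fin n → ZMod 2) with hΩ
  have hΩpos : 0 < (Fintype.card Ω : ℝ) := by
    have : 0 < Fintype.card Ω := Fintype.card_pos_iff.2 ⟨(fun _ => true, fun _ _ => 0)⟩
    exact_mod_cast this
  have hsum : ∑ p : Ω, ((Fam r p.1 p.2).card : ℝ) ≤
      ∑ _p : Ω, fv r * (n.choose r : ℝ) := by
    have h1 : ∑ p : Ω, ((Fam r p.1 p.2).card : ℝ) =
        ∑ Z ∈ powersetCard r (univ : Finset (Fin n)),
        (((univ : Finset Ω).filter (fun p => Even (fp p.1 Z).card ∧
          F1 p.2 (fp p.1 Z) (fq p.1 Z) = 0 ∧ F3 p.2 (fp p.1 Z) (fq p.1 Z) = 0)).card : ℝ) := by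
      simp only [Fam, Finset.card_filter]
      push_cast
      rw [Finset.sum_comm]
    rw [h1]
    have h2 : ∑ Z ∈ powersetCard r (univ : Finset (Fin n)),
        (((univ : Finset Ω).filter (fun p => Even (fp p.1 Z).card ∧
          F1 p.2 (fp p.1 Z) (fq p.1 Z) = 0 ∧ F3 p.2 (fp p.1 Z) (fq p.1 Z) = 0)).card : ℝ) ≤
        ∑ _Z ∈ powersetCard r (univ : Finset (Fin n)), fv r * (Fintype.card Ω : ℝ) := by
      apply Finset.sum_le_sum
      intro Z hZ
      exact hcount hr hr2 Z (Finset.mem_powersetCard.1 hZ).2
    refine h2.trans ?_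
    rw [Finset.sum_const, Finset.sum_const, Finset.card_powersetCard, Finset.card_univ,
      Finset.card_univ, Fintype.card_fin]
    simp only [nsmul_eq_mul]
    apply le_of_eq
    ring
  obtain ⟨p, -, hp⟩ := Finset.exists_le_of_sum_le
    (Finset.univ_nonempty_iff.2 ⟨(fun _ => true, fun _ _ => 0)⟩) hsum
  refine ⟨Fam r p.1 p.2, cover hr p.1 p.2, ?_⟩
  have h3 : (0 : ℝ) ≤ (r : ℝ) + 1 := by positivity
  calc ((Fam r p.1 p.2).card : ℝ) * ((r : ℝ) + 1)
      ≤ (fv r * (n.choose r : ℝ)) * ((r : ℝ) + 1) := mul_le_mul_of_nonneg_right hp h3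
    _ = _ := by ring

end Pool.Agent.W389.Tur
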