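import Pool.Agent.W389.Tur.GoodEven
import Pool.Agent.H369R2.TD.Asy
import Pool.Agent.H369R2.TD.Three
import Pool.Agent.H369R2.TD.Sys
import Pool.Agent.H369R2.TD.Basic

/-!
The determinant codes of `Pool.Agent.H369R2.TD` with the new values for even uniformity.
-/

set_option autoImplicit false

open Finset Filter

namespace Pool.Agent.W389.Tur

open Pool.Agent.H369R2.TD

theorem tur_fv {r : ℕ} (hr : Even r) (hr2 : 2 ≤ r) : Tur r (fv r) := by
  intro n
  obtain ⟨F, ⟨hF1, hF2⟩, hF3⟩ := good_even_fv hr hr2 n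
  refine ⟨F, fun Z hZ => (hF1 Z hZ).2, fun Y hY => hF2 Y (Finset.subset_univ _) hY, ?_⟩
  have h1 : (0 : ℝ) < (r : ℝ) + 1 := by positivity
  have h2 : (F.card : ℝ) * (r + 1) ≤ (fv r * (n.choose r : ℝ)) * (r + 1) := by
    refine hF3.trans (le_of_eq ?_)
    ring
  exact le_of_mul_le_mul_right h2 h1

/-- the Turán densities `t(m+1, m) ≤ dn m` used for the zero sets -/
noncomputable def dn : ℕ → ℝ
  | 0 => 1
  | 1 => 1
  | 2 => 1 / 2
  | 3 => 4 / 9
  | 4 => 5 / 16
  | 5 => 5 / 16
  | 6 => 17 / 64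
  | 7 => 17 / 64
  | 8 => 215455 / 1000000
  | 9 => 215455 / 1000000
  | 10 => 178879 / 1000000
  | 11 => 178879 / 1000000
  | 12 => 156067 / 1000000
  | 13 => 156067 / 1000000
  | 14 => 142666 / 1000000
  | 15 => 142666 / 1000000
  | 16 => 134985 / 1000000
  | 17 => 134985 / 1000000
  | 18 => 130629 / 1000000
  | (m + 19) => (4019 / 1000) / ((m : ℝ) + 20)

theorem dn_nonneg (m : ℕ) : 0 ≤ dn m := by
  unfold dn
  split <;> positivity

theorem tur_dn (m : ℕ) : Tur m (dn m) := by
  have e (s : ℕ) (hs : Even s) (hs2 : 2 ≤ s) := tur_fv hs hs2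
  unfold dn
  split
  · exact tur_zero
  · exact tur_zero.succ
  · exact (e 2 (by decide) (by norm_num)).mono (by norm_num [fv])
  · exact tur_three
  · exact (e 4 (by decide) (by norm_num)).mono (by norm_num [fv])
  · exact (e 4 (by decide) (by norm_num)).succ.mono (by norm_num [fv])
  · exact (e 6 (by decide) (by norm_num)).mono (by norm_num [fv])
  · exact (e 6 (by decide) (by norm_num)).succ.mono (by norm_num [fv])
  · exact (e 8 (by decide) (by norm_num)).mono (by norm_num [fv])
  · exact (e 8 (by decide) (by norm_num)).succ.mono (by norm_num [fv])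
  · exact (e 10 (by decide) (by norm_num)).mono (by norm_num [fv])
  · exact (e 10 (by decide) (by norm_num)).succ.mono (by norm_num [fv])
  · exact (e 12 (by decide) (by norm_num)).mono (by norm_num [fv])
  · exact (e 12 (by decide) (by norm_num)).succ.mono (by norm_num [fv])
  · exact (e 14 (by decide) (by norm_num)).mono (by norm_num [fv])
  · exact (e 14 (by decide) (by norm_num)).succ.mono (by norm_num [fv])
  · exact (e 16 (by decide) (by norm_num)).mono (by norm_num [fv])
  · exact (e 16 (by decide) (by norm_num)).succ.mono (by norm_num [fv])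
  · exact (e 18 (by decide) (by norm_num)).mono (by norm_num [fv])
  · rename_i k
    refine (tur_4019 (k + 19)).mono ?_
    push_cast
    apply le_of_eq
    congr 1
    ring

theorem dn_le (m : ℕ) : ((m : ℝ) + 1) * dn m ≤ 4019 / 1000 := by
  unfold dn
  split
  case h_20 _ k =>
    push_cast
    have : (0 : ℝ) < (k : ℝ) + 20 := by positivity
    rw [show ((k : ℝ) + 18 + 1 + 1) = (k : ℝ) + 20 by ring]
    rw [mul_div_cancel₀ _ this.ne']
  all_goals norm_num

/-- the constants `c j = j * t(j, j-1)` -/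
noncomputable def cn : ℕ → ℝ
  | 0 => 0
  | (m + 1) => ((m : ℝ) + 1) * dn m

theorem exp_up : Real.exp (34 / 5) < 89784730 / 100000 := by
  have h1 : Real.exp (34 / 5) ^ 5 = Real.exp 1 ^ 34 := by
    rw [← Real.exp_nat_mul, ← Real.exp_nat_mul]; norm_num
  have h2 := Real.exp_one_lt_d9
  refine lt_of_pow_lt_pow_left₀ 5 (by norm_num) ?_
  rw [h1]
  calc Real.exp 1 ^ 34 < 2.7182818286 ^ 34 := by gcongr
    _ < _ := by norm_num

theorem exp_lo : 89784729 / 100000 - 1 / 1000 < Real.exp (34 / 5) := by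
  have h1 : Real.exp (34 / 5) ^ 5 = Real.exp 1 ^ 34 := by
    rw [← Real.exp_nat_mul, ← Real.exp_nat_mul]; norm_num
  have h2 := Real.exp_one_gt_d9
  refine lt_of_pow_lt_pow_left₀ 5 (Real.exp_pos _).le ?_
  rw [h1]
  calc (89784729 / 100000 - 1 / 1000 : ℝ) ^ 5 < 2.7182818283 ^ 34 := by norm_num
    _ < _ := by gcongr

theorem exp_small : Real.exp (1 / 100000) ≤ 100001 / 100000 + 1 / 10000000000 := by
  have := Real.exp_bound' (x := 1 / 100000) (by norm_num) (by norm_num) (n := 2) (by norm_num)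
  refine this.trans ?_
  simp [Finset.sum_range_succ, Nat.factorial]
  norm_num

theorem psi_num : Real.exp (-(34 / 5)) * Psi 20 cn (4019 / 1000) (680001 / 100000) ≤
    18644 / 10000 := by
  have hE : (0 : ℝ) < Real.exp (-(34 / 5)) := Real.exp_pos _
  have hlow : (100000 : ℝ) / 89784730 ≤ Real.exp (-(34 / 5)) := by
    rw [Real.exp_neg, ← one_div, div_le_div_iff₀ (by norm_num) (Real.exp_pos _)]
    have := exp_up
    linarith
  have hx : Real.exp (-(34 / 5)) * Real.exp (680001 / 100000) = Real.exp (1 / 100000) := by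
    rw [← Real.exp_add]; norm_num
  have hS : ∑ j ∈ range 20, (cn j - 4019 / 1000) * ((680001 / 100000 : ℝ) ^ j / (j.factorial : ℝ))
      ≤ - (193457 / 100) := by
    simp only [Finset.sum_range_succ, Finset.sum_range_zero, cn, dn]
    norm_num [Nat.factorial]
  rw [Psi, mul_add]
  have h1 : Real.exp (-(34 / 5)) * (4019 / 1000 * Real.exp (680001 / 100000))
      = 4019 / 1000 * Real.exp (1 / 100000) := by
    rw [← hx]; ring
  rw [h1]
  have h2 := exp_small
  have h3 : Real.exp (-(34 / 5)) * ∑ j ∈ range 20, (cn j - 4019 / 1000) *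
      ((680001 / 100000 : ℝ) ^ j / (j.factorial : ℝ))
      ≤ (100000 : ℝ) / 89784730 * (- (193457 / 100)) := by
    nlinarith
  linarith

/-- the asymptotic constant drops below two -/
theorem tur_19932 : ∀ᶠ r : ℕ in atTop, Tur r ((19932 / 10000) / ((r : ℝ) + 1)) := by
  have hP : Real.exp (-(34 / 5)) ≤ 11138 / 10000000 := by
    rw [Real.exp_neg, ← one_div, div_le_div_iff₀ (Real.exp_pos _) (by norm_num)]
    have := exp_lo
    linarith
  refine asymptotic (δ := dn) (c := cn) (J := 20) (K := 4019 / 1000) tur_dn dn_nonneg rfl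
    (fun m _ => le_refl _) dn_le (by norm_num) (y₁ := 34 / 5) (x₁ := 680001 / 100000)
    (y₂ := 34 / 5) (x₂ := 680001 / 100000) (lam := 9677 / 10000) (D₁ := 18644 / 10000)
    (D₂ := 18644 / 10000) (P₁ := 11138 / 10000000) (P₂ := 11138 / 10000000)
    (by norm_num) (by norm_num) (by norm_num) (by norm_num) (by norm_num) (by norm_num)
    psi_num psi_num hP (by norm_num) hP (by norm_num) ?_
  norm_num

end Pool.Agent.W389.Tur
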